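import Mathlib

/-!
# Finite unit norm tight frames of every length in real `ℓ₁^n`, with sign functionals

For `n ≥ 3` and `N = n + r`, `0 ≤ r ≤ n`, the frame is explicit: put
`b = (1 - r/n) / (2n - 4)` and `a = 1 - (n-1) b ≥ 0`, and take the `n` pairs
`x_i = (b, …, b, -a, b, …, b)`, `f_i = (1, …, 1, -1, 1, …, 1)` (exceptional entry at place `i`)
together with `r` copies of `x = (1/n, …, 1/n)`, `f = (1, …, 1)`.  Unions give all lengths.
-/

set_option autoImplicit false

namespace Pool.Agent.Results.MP_580194_an.SignFrames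

/-- `(x i, f i)`, `i < N`, is a finite unit norm tight frame of length `N` for real `ℓ₁^n`:
`‖x i‖₁ = 1`, `‖f i‖_∞ = 1`, `f i (x i) = 1` and `∑ i, f i (y) x i = (N / n) y` for all `y`.
(The norm of `f i : Fin n → ℝ` is the maximum norm.) -/
def IsFUNTF (n N : ℕ) (x f : Fin N → Fin n → ℝ) : Prop :=
  (∀ i, ∑ j, |x i j| = 1) ∧ (∀ i, ‖f i‖ = 1) ∧ (∀ i, ∑ j, f i j * x i j = 1) ∧
  ∀ (y : Fin n → ℝ) (j : Fin n), ∑ i, (∑ k, f i k * y k) * x i j = ((N : ℝ) / (n : ℝ)) * y j

/-- existence of a frame, with sign functionals when `n ≥ 3` -/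
def Has (n N : ℕ) : Prop :=
  ∃ x f : Fin N → Fin n → ℝ, IsFUNTF n N x f ∧ (3 ≤ n → ∀ i j, |f i j| = 1)

lemma norm_eq_one {n : ℕ} (f : Fin n → ℝ) (j : Fin n) (hj : |f j| = 1) (h : ∀ i, |f i| ≤ 1) :
    ‖f‖ = 1 := by
  refine le_antisymm ?_ ?_
  · rw [pi_norm_le_iff_of_nonneg zero_le_one]
    exact h
  · rw [← hj]
    exact norm_le_pi_norm f j

lemma Has.add {n N M : ℕ} (h1 : Has n N) (h2 : Has n M) : Has n (N + M) := by
  obtain ⟨x, f, ⟨hx, hf, hfx, hs⟩, hsg⟩ := h1
  obtain ⟨x', f', ⟨hx', hf', hfx', hs'⟩, hsg'⟩ := h2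
  refine ⟨Fin.append x x', Fin.append f f', ⟨?_, ?_, ?_, ?_⟩, ?_⟩
  · intro i
    refine Fin.addCases (fun i => ?_) (fun i => ?_) i
    · simpa using hx i
    · simpa using hx' i
  · intro i
    refine Fin.addCases (fun i => ?_) (fun i => ?_) i
    · simpa using hf i
    · simpa using hf' i
  · intro i
    refine Fin.addCases (fun i => ?_) (fun i => ?_) i
    · simpa using hfx i
    · simpa using hfx' i
  · intro y j
    rw [Fin.sum_univ_add]
    simp only [Fin.append_left, Fin.append_right]
    rw [hs y j, hs' y j]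
    push_cast
    ring
  · intro h3 i j
    refine Fin.addCases (fun i => ?_) (fun i => ?_) i
    · simpa using hsg h3 i j
    · simpa using hsg' h3 i j

/-- the explicit frame of length `n + r`, `n ≥ 3`, `r ≤ n` -/
lemma has_base {n r : ℕ} (hn : 3 ≤ n) (hr : r ≤ n) : Has n (n + r) := by
  have hn' : (3 : ℝ) ≤ n := by exact_mod_cast hn
  have hr' : (r : ℝ) ≤ n := by exact_mod_cast hr
  have hn0 : (0 : ℝ) < n := by linarith
  have h24 : (0 : ℝ) < 2 * n - 4 := by linarith
  set b : ℝ := (1 - (r : ℝ) / n) / (2 * n - 4) with hb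
  set a : ℝ := 1 - ((n : ℝ) - 1) * b with ha
  have hrn : (r : ℝ) / n ≤ 1 := by rw [div_le_one hn0]; exact hr'
  have hrn0 : (0 : ℝ) ≤ (r : ℝ) / n := by positivity
  have hb0 : 0 ≤ b := div_nonneg (by linarith) h24.le
  have hbmul : b * (2 * n - 4) = 1 - (r : ℝ) / n := by rw [hb, div_mul_cancel₀ _ h24.ne']
  have ha0 : 0 ≤ a := by
    have h1 : ((n : ℝ) - 1) * b ≤ b * (2 * n - 4) := by nlinarith
    rw [ha]; linarith
  have hnr : (n : ℝ) ≠ 0 := hn0.ne'
  have hcard : ∀ c : ℝ, ∑ _j : Fin n, c = n * c := by intro c; simp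
  let x1 : Fin n → Fin n → ℝ := fun i j => if i = j then -a else b
  let f1 : Fin n → Fin n → ℝ := fun i j => if i = j then -1 else 1
  have hx1 : ∀ i j, x1 i j = b - (a + b) * (if i = j then 1 else 0) := by
    intro i j; by_cases h : i = j <;> simp [x1, h]
  have hf1 : ∀ i j, f1 i j = 1 - 2 * (if i = j then 1 else 0) := by
    intro i j; by_cases h : i = j <;> simp [f1, h]; norm_num
  refine ⟨Fin.append x1 (fun _ _ => 1 / (n : ℝ)), Fin.append f1 (fun _ _ => 1),
    ⟨?_, ?_, ?_, ?_⟩, ?_⟩
  · intro i
    refine Fin.addCases (fun i => ?_) (fun i => ?_) i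
    · simp only [Fin.append_left]
      have h : ∀ j, |x1 i j| = b + (a - b) * (if i = j then 1 else 0) := by
        intro j; by_cases h : i = j
        · simp [x1, h, abs_of_nonneg ha0]
        · simp [x1, h, abs_of_nonneg hb0]
      simp only [h, Finset.sum_add_distrib, ← Finset.mul_sum, Finset.sum_ite_eq, Finset.mem_univ,
        if_true, hcard]
      rw [ha]; ring
    · simp only [Fin.append_right]
      rw [hcard, abs_of_nonneg (by positivity)]
      field_simp
  · intro i
    refine Fin.addCases (fun i => ?_) (fun i => ?_) i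
    · simp only [Fin.append_left]
      refine norm_eq_one _ i (by simp [f1]) (fun j => ?_)
      by_cases h : i = j <;> simp [f1, h]
    · simp only [Fin.append_right]
      exact norm_eq_one _ ⟨0, by omega⟩ (by simp) (fun j => by simp)
  · intro i
    refine Fin.addCases (fun i => ?_) (fun i => ?_) i
    · simp only [Fin.append_left]
      have h : ∀ j, f1 i j * x1 i j = b + (a - b) * (if i = j then 1 else 0) := by
        intro j; by_cases h : i = j <;> simp [f1, x1, h]
      simp only [h, Finset.sum_add_distrib, ← Finset.mul_sum, Finset.sum_ite_eq, Finset.mem_univ,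
        if_true, hcard]
      rw [ha]; ring
    · simp only [Fin.append_right]
      rw [hcard]
      field_simp
  · intro y j
    rw [Fin.sum_univ_add]
    simp only [Fin.append_left, Fin.append_right]
    have h1 : ∀ i, ∑ k, f1 i k * y k = (∑ k, y k) - 2 * y i := by
      intro i
      have : ∀ k, f1 i k * y k = y k - 2 * (if i = k then y k else 0) := by
        intro k; rw [hf1]; by_cases h : i = k <;> simp [h]; ring
      simp only [this, Finset.sum_sub_distrib, ← Finset.mul_sum, Finset.sum_ite_eq,
        Finset.mem_univ, if_true]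
    set s : ℝ := ∑ k, y k with hs
    have h2 : ∑ i, (∑ k, f1 i k * y k) * x1 i j
        = b * (n * s - 2 * s) - (a + b) * (s - 2 * y j) := by
      have : ∀ i, (∑ k, f1 i k * y k) * x1 i j
          = b * s - 2 * b * y i - (a + b) * (if i = j then (s - 2 * y i) else 0) := by
        intro i; rw [h1, hx1]; by_cases h : i = j <;> simp [h] <;> ring
      simp only [this, Finset.sum_sub_distrib, ← Finset.mul_sum, Finset.sum_ite_eq',
        Finset.mem_univ, if_true, hcard, ← hs]
      ring
    rw [h2]
    simp only [one_mul, ← hs, Finset.sum_const, Finset.card_univ, Fintype.card_fin, nsmul_eq_mul]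
    have h3 : b * (n * s - 2 * s) - (a + b) * (s - 2 * y j)
        = s * (b * (2 * n - 4) - 1) + (2 - b * (2 * n - 4)) * y j := by
      rw [ha]; ring
    rw [h3, hbmul]
    push_cast
    field_simp
    ring
  · intro _ i j
    refine Fin.addCases (fun i => ?_) (fun i => ?_) i
    · simp only [Fin.append_left]
      by_cases h : i = j <;> simp [f1, h]
    · simp

lemma has_one (N : ℕ) (_hN : 1 ≤ N) : Has 1 N := by
  refine ⟨fun _ _ => 1, fun _ _ => 1, ⟨?_, ?_, ?_, ?_⟩, fun h => by omega⟩
  · intro i; simp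
  · intro i; exact norm_eq_one _ 0 (by simp) (fun j => by simp)
  · intro i; simp
  · intro y j
    have : j = 0 := Subsingleton.elim _ _
    subst this
    simp

lemma has_two_two : Has 2 2 := by
  refine ⟨![![1, 0], ![0, 1]], ![![1, 0], ![0, 1]], ⟨?_, ?_, ?_, ?_⟩, fun h => by omega⟩
  · intro i; fin_cases i <;> simp
  · intro i; fin_cases i
    · exact norm_eq_one _ 0 (by simp) (fun j => by fin_cases j <;> simp)
    · exact norm_eq_one _ 1 (by simp) (fun j => by fin_cases j <;> simp)
  · intro i; fin_cases i <;> simp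
  · intro y j
    fin_cases j <;> simp [Fin.sum_univ_succ]

lemma has_two_three : Has 2 3 := by
  refine ⟨![![1/4, 3/4], ![1/4, -3/4], ![1, 0]], ![![1, 1], ![1, -1], ![1, 0]],
    ⟨?_, ?_, ?_, ?_⟩, fun h => by omega⟩
  · intro i; fin_cases i
    · simp [Fin.sum_univ_succ, abs_of_pos]; norm_num
    · simp [Fin.sum_univ_succ, abs_div, abs_of_pos]; norm_num
    · simp
  · intro i; fin_cases i
    · exact norm_eq_one _ 0 (by simp) (fun j => by fin_cases j <;> simp)
    · exact norm_eq_one _ 0 (by simp) (fun j => by fin_cases j <;> simp)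
    · exact norm_eq_one _ 0 (by simp) (fun j => by fin_cases j <;> simp)
  · intro i; fin_cases i
    · simp [Fin.sum_univ_succ]; norm_num
    · simp [Fin.sum_univ_succ]; norm_num
    · simp
  · intro y j
    fin_cases j
    · simp [Fin.sum_univ_succ]; ring
    · simp [Fin.sum_univ_succ]; ring

lemma has_all (n : ℕ) (hn : 1 ≤ n) (N : ℕ) (hN : n ≤ N) : Has n N := by
  rcases Nat.lt_or_ge n 2 with h | h
  · have : n = 1 := by omega
    subst this
    exact has_one N hN
  induction N using Nat.strong_induction_on with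
  | _ N ih =>
    rcases Nat.lt_or_ge N (2 * n) with h2 | h2
    · rcases Nat.lt_or_ge n 3 with h3 | h3
      · have : n = 2 := by omega
        subst this
        have : N = 2 ∨ N = 3 := by omega
        rcases this with rfl | rfl
        · exact has_two_two
        · exact has_two_three
      · obtain ⟨r, rfl⟩ := Nat.exists_eq_add_of_le hN
        exact has_base h3 (by omega)
    · have h4 : Has n (N - n) := ih (N - n) (by omega) (by omega)
      have h5 : Has n n := ih n (by omega) le_rfl
      have h6 := h5.add h4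
      have : n + (N - n) = N := by omega
      rwa [this] at h6

/-- **Positive answer to Q1.**  For every `n ≥ 1` and every `N ≥ n`, real `ℓ₁^n` has a finite unit
norm tight frame of length `N`; moreover, for `n ≥ 3` all its functionals can be taken to be sign
vectors, i.e. extreme points of the unit ball of `ℓ_∞^n`. -/
theorem result (n : ℕ) (hn : 1 ≤ n) (N : ℕ) (hN : n ≤ N) :
    ∃ x f : Fin N → Fin n → ℝ, IsFUNTF n N x f ∧ (3 ≤ n → ∀ i j, |f i j| = 1) :=
  has_all n hn N hN

end Pool.Agent.Results.MP_580194_an.SignFrames
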